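import Pool.Agent.H892.ZL.Main

/-!
The variety of the lines contained in a quadric of a regular net of quadrics in `P^3` is not
determined by the discriminant quartic of the net.
-/

set_option autoImplicit false

open Pool.Agent.H892.ZL

namespace Pool.Agent.Results.MP_970871_ag.LinesNotDetermined

/-- **There are two regular nets of quadrics in `P^3` with the same discriminant quartic and with
non-isomorphic threefolds of lines.** -/
theorem result : ∃ Q Q' : Fin 3 → Matrix (Fin 4) (Fin 4) ℂ, Regular Q ∧ Regular Q' ∧
    disc Q = disc Q' ∧ IsoVar (discCurve Q) (discCurve Q') ∧ ¬ IsoVar (ZZ Q) (ZZ Q') := by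
  obtain ⟨⟨Q, Q', hQ, hQ', hd, hn⟩, -⟩ := f_FINAL
  refine ⟨Q, Q', hQ, hQ', hd, ?_, hn⟩
  have hc : discCurve Q = discCurve Q' := by
    unfold discCurve
    rw [hd]
  rw [hc]
  exact t_REFL 3 _

end Pool.Agent.Results.MP_970871_ag.LinesNotDetermined
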